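import Pool.Agent.Helper62.FO.JetFun

/-!
# Order of flat outputs: dual derivations of the basis `d (D^t y_i)` (offer FO-B2)
-/

namespace FlatOrder

namespace DualDer

variable {K : Type*} [Field K] {n m : ℕ}

/-- The semilinear operator induced by `D` on differentials. -/
noncomputable def L (J : JetFun K n m) (w : Coord n m →₀ K) : Coord n m →₀ K :=
  w.sum fun α x => x • J.d (J.D (J.X α)) + Finsupp.single α (J.D x)

variable (J : JetFun K n m)

theorem L_zero : L J 0 = 0 := by simp [L]

theorem L_add (w w' : Coord n m →₀ K) : L J (w + w') = L J w + L J w' := by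
  unfold L
  apply Finsupp.sum_add_index'
  · intro α; simp
  · intro α x y
    rw [add_smul, map_add, Finsupp.single_add]
    abel

theorem L_single (α : Coord n m) (x : K) :
    L J (Finsupp.single α x) = x • J.d (J.D (J.X α)) + Finsupp.single α (J.D x) := by
  unfold L
  rw [Finsupp.sum_single_index]
  simp

theorem L_smul (a : K) (w : Coord n m →₀ K) : L J (a • w) = J.D a • w + a • L J w := by
  induction w using Finsupp.induction_linear with
  | zero => simp [L_zero]
  | add f g hf hg =>
    rw [smul_add, L_add, L_add, hf, hg, smul_add, smul_add]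
    abel
  | single α x =>
    rw [Finsupp.smul_single, L_single, L_single, smul_eq_mul, Derivation.leibniz, smul_add,
      Finsupp.single_add, smul_smul, Finsupp.smul_single, Finsupp.smul_single]
    simp only [smul_eq_mul]
    rw [mul_comm x (J.D a)]
    abel

theorem d_D (a : K) : J.d (J.D a) = L J (J.d a) := J.d_D a

theorem d_zero : J.d 0 = 0 := by
  have h := J.d_add 0 0
  rw [add_zero] at h
  exact left_eq_add.1 h

section basis

variable {ι : Type*} (B : Module.Basis (ι × ℕ) K (Coord n m →₀ K))
  (hL : ∀ q : ι × ℕ, L J (B q) = B (q.1, q.2 + 1))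

include hL

theorem repr_L (w : Coord n m →₀ K) :
    B.repr (L J w) = (B.repr w).sum fun q x =>
      Finsupp.single q (J.D x) + Finsupp.single (q.1, q.2 + 1) x := by
  classical
  obtain ⟨c, rfl⟩ : ∃ c, w = B.repr.symm c := ⟨B.repr w, by simp⟩
  rw [LinearEquiv.apply_symm_apply]
  induction c using Finsupp.induction_linear with
  | zero => simp [L_zero]
  | add f g hf hg =>
    rw [map_add, L_add, map_add, hf, hg, Finsupp.sum_add_index']
    · intro q; simp
    · intro q x y
      rw [map_add, Finsupp.single_add, Finsupp.single_add]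
      abel
  | single q x =>
    rw [Module.Basis.repr_symm_single, L_smul, hL, map_add, map_smul, map_smul, B.repr_self,
      B.repr_self, Finsupp.sum_single_index]
    · simp
    · simp

theorem repr_L_zero (w : Coord n m →₀ K) (i : ι) :
    B.repr (L J w) (i, 0) = J.D (B.repr w (i, 0)) := by
  classical
  rw [repr_L J B hL]
  induction B.repr w using Finsupp.induction_linear with
  | zero => simp
  | add f g hf hg =>
    rw [Finsupp.sum_add_index', Finsupp.add_apply, hf, hg, Finsupp.add_apply, map_add]
    · intro q; simp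
    · intro q x y
      rw [map_add, Finsupp.single_add, Finsupp.single_add]
      abel
  | single q x =>
    rw [Finsupp.sum_single_index (by simp), Finsupp.add_apply]
    have h1 : (Finsupp.single (q.1, q.2 + 1) x : ι × ℕ →₀ K) (i, 0) = 0 := by
      rw [Finsupp.single_apply, if_neg]
      intro h
      have := congrArg Prod.snd h
      simp at this
    rw [h1, add_zero, Finsupp.single_apply, Finsupp.single_apply]
    split_ifs with h
    · rfl
    · simp

theorem repr_L_succ (w : Coord n m →₀ K) (i : ι) (j : ℕ) :
    B.repr (L J w) (i, j + 1) = J.D (B.repr w (i, j + 1)) + B.repr w (i, j) := by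
  classical
  rw [repr_L J B hL]
  induction B.repr w using Finsupp.induction_linear with
  | zero => simp
  | add f g hf hg =>
    rw [Finsupp.sum_add_index', Finsupp.add_apply, hf, hg, Finsupp.add_apply, Finsupp.add_apply,
      map_add]
    · abel
    · intro q; simp
    · intro q x y
      rw [map_add, Finsupp.single_add, Finsupp.single_add]
      abel
  | single q x =>
    rw [Finsupp.sum_single_index (by simp), Finsupp.add_apply]
    have h1 : (Finsupp.single (q.1, q.2 + 1) x : ι × ℕ →₀ K) (i, j + 1) =
        (Finsupp.single q x : ι × ℕ →₀ K) (i, j) := by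
      obtain ⟨a, b⟩ := q
      rw [Finsupp.single_apply, Finsupp.single_apply]
      have : ((a, b + 1) = (i, j + 1)) ↔ ((a, b) = (i, j)) := by simp
      simp only [this]
    rw [h1]
    congr 1
    rw [Finsupp.single_apply, Finsupp.single_apply]
    split_ifs with h
    · rfl
    · simp

end basis

/-- The derivation `a ↦ λ (d a)` of a linear functional `λ`. -/
noncomputable def derF (f : (Coord n m →₀ K) →ₗ[K] K) : Derivation ℤ K K :=
  Derivation.mk' (AddMonoidHom.toIntLinearMap
    { toFun := fun a => f (J.d a)
      map_zero' := by rw [d_zero, map_zero]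
      map_add' := fun a b => by rw [J.d_add, map_add] })
    (fun a b => by simp [J.d_mul])

theorem derF_apply (f : (Coord n m →₀ K) →ₗ[K] K) (a : K) : derF J f a = f (J.d a) := rfl

theorem functional_sum (f : (Coord n m →₀ K) →ₗ[K] K) (w : Coord n m →₀ K)
    (S : Finset (Coord n m)) (hS : w.support ⊆ S) :
    f w = ∑ α ∈ S, w α * f (Finsupp.single α 1) := by
  conv_lhs => rw [← Finsupp.sum_single w, Finsupp.sum_of_support_subset w hS _ (by simp)]
  rw [map_sum]
  refine Finset.sum_congr rfl fun α _ => ?_
  rw [← smul_eq_mul, ← map_smul, Finsupp.smul_single, smul_eq_mul, mul_one]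

theorem d_coord_support (a : K) (α : Coord n m) :
    (J.d (J.d a α)).support ⊆ (J.d a).support := by
  intro β hβ
  rw [Finsupp.mem_support_iff] at hβ ⊢
  intro h0
  apply hβ
  rw [J.d_symm, h0, d_zero]
  rfl

theorem comm_aux (f g : (Coord n m →₀ K) →ₗ[K] K) (a : K) :
    derF J f (derF J g a) - derF J g (derF J f a) =
      ∑ α ∈ (J.d a).support, J.d a α *
        (derF J f (g (Finsupp.single α 1)) - derF J g (f (Finsupp.single α 1))) := by
  have key : ∀ f g : (Coord n m →₀ K) →ₗ[K] K, derF J f (derF J g a) =
      ∑ α ∈ (J.d a).support, J.d a α * derF J f (g (Finsupp.single α 1)) +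
      ∑ α ∈ (J.d a).support, ∑ β ∈ (J.d a).support,
        J.d (J.d a α) β * (g (Finsupp.single α 1) * f (Finsupp.single β 1)) := by
    intro f g
    rw [derF_apply J g, functional_sum g (J.d a) _ (Finset.Subset.refl _), map_sum,
      ← Finset.sum_add_distrib]
    refine Finset.sum_congr rfl fun α _ => ?_
    rw [Derivation.leibniz, smul_eq_mul, smul_eq_mul]
    congr 1
    rw [derF_apply J f (J.d a α), functional_sum f (J.d (J.d a α)) _ (d_coord_support J a α),
      Finset.mul_sum]
    refine Finset.sum_congr rfl fun β _ => ?_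
    ring
  rw [key f g, key g f]
  have hswap : ∑ α ∈ (J.d a).support, ∑ β ∈ (J.d a).support,
        J.d (J.d a α) β * (f (Finsupp.single α 1) * g (Finsupp.single β 1)) =
      ∑ α ∈ (J.d a).support, ∑ β ∈ (J.d a).support,
        J.d (J.d a α) β * (g (Finsupp.single α 1) * f (Finsupp.single β 1)) := by
    rw [Finset.sum_comm]
    refine Finset.sum_congr rfl fun α _ => Finset.sum_congr rfl fun β _ => ?_
    rw [J.d_symm a β α, mul_comm (f _) (g _)]
  rw [hswap, add_sub_add_right_eq_sub, ← Finset.sum_sub_distrib]
  refine Finset.sum_congr rfl fun α _ => ?_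
  ring

theorem comm_of_basis {κ : Type*} (B : Module.Basis κ K (Coord n m →₀ K)) (c : κ → K)
    (hB : ∀ q, B q = J.d (c q)) (f g : (Coord n m →₀ K) →ₗ[K] K)
    (hf : ∀ q a, derF J a (f (B q)) = 0) (hg : ∀ q a, derF J a (g (B q)) = 0) (a : K) :
    derF J f (derF J g a) = derF J g (derF J f a) := by
  set ν : (Coord n m →₀ K) →ₗ[K] K := Finsupp.linearCombination K
    (fun α => derF J f (g (Finsupp.single α 1)) - derF J g (f (Finsupp.single α 1))) with hν
  have h1 : ∀ a, derF J f (derF J g a) - derF J g (derF J f a) = ν (J.d a) := by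
    intro a
    rw [comm_aux, hν, Finsupp.linearCombination_apply, Finsupp.sum]
    simp only [smul_eq_mul]
  have h2 : ν = 0 := by
    apply B.ext
    intro q
    rw [hB, ← h1, derF_apply J g (c q), derF_apply J f (c q), ← hB, hf, hg]
    simp
  rw [← sub_eq_zero, h1, h2]
  rfl

theorem order_L (w : Coord n m →₀ K) (R : ℕ) (hw : ∀ j b, R < j → w (Sum.inr (j, b)) = 0)
    (j : ℕ) (b : Fin m) (hj : R + 1 < j) : L J w (Sum.inr (j, b)) = 0 := by
  classical
  unfold L
  rw [Finsupp.sum, Finsupp.finsetSum_apply]
  refine Finset.sum_eq_zero fun α hα => ?_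
  rw [Finsupp.add_apply, Finsupp.smul_apply]
  rw [Finsupp.mem_support_iff] at hα
  rcases α with i | ⟨j', b'⟩
  · rw [J.d_state i j b (by omega), smul_zero, zero_add, Finsupp.single_apply, if_neg (by simp)]
  · have hj' : j' ≤ R := by
      by_contra h
      exact hα (hw j' b' (by omega))
    rw [J.D_X, J.d_X, Finsupp.single_apply, Finsupp.single_apply, if_neg, if_neg]
    · simp
    · intro h
      have := congrArg Prod.fst (Sum.inr.inj h)
      simp at this
      omega
    · intro h
      have := congrArg Prod.fst (Sum.inr.inj h)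
      simp at this
      omega

theorem order_iter (a : K) (R : ℕ) (hw : ∀ j b, R < j → J.d a (Sum.inr (j, b)) = 0) (t : ℕ) :
    ∀ j b, R + t < j → J.d (J.D^[t] a) (Sum.inr (j, b)) = 0 := by
  induction t with
  | zero => simpa using hw
  | succ t ih =>
    intro j b hj
    rw [Function.iterate_succ_apply', d_D]
    exact order_L J _ (R + t) ih j b (by omega)

/-- A functional vanishing on the differentials of all coordinates is zero. -/
theorem eq_zero_of_X (f : (Coord n m →₀ K) →ₗ[K] K) (h : ∀ α, f (J.d (J.X α)) = 0) : f = 0 := by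
  apply Finsupp.lhom_ext
  intro α x
  have h2 := h α
  rw [J.d_X] at h2
  have : Finsupp.single α x = x • Finsupp.single α (1 : K) := by simp
  rw [this, map_smul, h2]
  simp

end DualDer

open DualDer in
theorem exists_dual_derivations {K : Type*} [Field K] [CharZero K] (J : JetFun K 4 2) (y : Fin 2 → K) (r : ℕ)
    (hr : ∀ i j b, r < j → J.d (y i) (Sum.inr (j, b)) = 0)
    (hli : LinearIndependent K (fun q : Fin 2 × ℕ => J.d (J.D^[q.2] (y q.1))))
    (hsp : (⊤ : Submodule K (Coord 4 2 →₀ K)) ≤
        Submodule.span K (Set.range fun q : Fin 2 × ℕ => J.d (J.D^[q.2] (y q.1))))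
    (hinp : ∀ b : Fin 2, ∃ i : Fin 4, J.X (Sum.inr (0, b)) = J.D (J.X (Sum.inl i))) :
    ∃ δ : ℕ → Derivation ℤ K K,
      (∀ a, δ 0 (J.D a) = J.D (δ 0 a)) ∧
      (∀ j a, δ (j + 1) (J.D a) = J.D (δ (j + 1) a) + δ j a) ∧
      (∀ i j a, δ i (δ j a) = δ j (δ i a)) ∧
      (∀ a, ∃ N, ∀ j, N ≤ j → δ j a = 0) ∧
      (∃ (i : Fin 4) (j : ℕ), δ j (J.X (Sum.inl i)) ≠ 0) ∧
      (∀ (b : Fin 2) (s : ℕ), δ (s + 1) (J.X (Sum.inr (0, b))) ≠ 0 →
        (∀ j, s + 1 < j → δ j (J.X (Sum.inr (0, b))) = 0) → s ≤ r + 3) := by
  classical
  set B : Module.Basis (Fin 2 × ℕ) K (Coord 4 2 →₀ K) := Module.Basis.mk hli hsp with hBdef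
  have hB : ∀ q, B q = J.d (J.D^[q.2] (y q.1)) := fun q => Module.Basis.mk_apply hli hsp q
  have hL : ∀ q, L J (B q) = B (q.1, q.2 + 1) := by
    intro q
    rw [hB, hB, ← d_D, ← Function.iterate_succ_apply' J.D]
  set δ : ℕ → Derivation ℤ K K := fun j => derF J (B.coord (0, j)) with hδ
  have hδa : ∀ j a, δ j a = B.repr (J.d a) (0, j) := fun j a => rfl
  have h1 : ∀ a, δ 0 (J.D a) = J.D (δ 0 a) := by
    intro a
    rw [hδa, hδa, d_D, repr_L_zero J B hL]
  have h2 : ∀ j a, δ (j + 1) (J.D a) = J.D (δ (j + 1) a) + δ j a := by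
    intro j a
    rw [hδa, hδa, hδa, d_D, repr_L_succ J B hL]
  refine ⟨δ, h1, h2, ?_, ?_, ?_, ?_⟩
  · intro i j a
    have hc : ∀ (i : ℕ) (q : Fin 2 × ℕ) (E : Derivation ℤ K K), E (B.coord (0, i) (B q)) = 0 := by
      intro i q E
      rw [Module.Basis.coord_apply, B.repr_self, Finsupp.single_apply]
      split_ifs
      · exact E.map_one_eq_zero
      · exact map_zero E
    exact comm_of_basis J B (fun q => J.D^[q.2] (y q.1)) hB _ _
      (fun q a => hc i q _) (fun q a => hc j q _) a
  · intro a
    refine ⟨(B.repr (J.d a)).support.sup Prod.snd + 1, fun j hj => ?_⟩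
    rw [hδa]
    by_contra h
    have := Finset.le_sup (f := Prod.snd) (Finsupp.mem_support_iff.2 h)
    simp only at this
    omega
  · by_contra hcon
    push Not at hcon
    have hall : ∀ α : Coord 4 2, ∀ j, δ j (J.X α) = 0 := by
      intro α
      rcases α with i | ⟨t, b⟩
      · exact hcon i
      · induction t with
        | zero =>
          obtain ⟨i, hi⟩ := hinp b
          rw [hi]
          intro j
          cases j with
          | zero => rw [h1, hcon, map_zero]
          | succ j => rw [h2, hcon, hcon, map_zero, add_zero]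
        | succ t ih =>
          rw [← J.D_X]
          intro j
          cases j with
          | zero => rw [h1, ih, map_zero]
          | succ j => rw [h2, ih, ih, map_zero, add_zero]
    have h0 : B.coord (0, 0) = 0 := eq_zero_of_X J _ fun α => hall α 0
    have h3 : B.coord (0, 0) (B (0, 0)) = 1 := by
      rw [Module.Basis.coord_apply, B.repr_self, Finsupp.single_eq_same]
    rw [h0] at h3
    simp at h3
  · intro b s hs1 hs2
    -- the coordinates of the derivatives of the input `b`
    have hne : ∀ τ, δ (s + 1 + τ) (J.X (Sum.inr (τ, b))) ≠ 0 ∧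
        ∀ j, s + 1 + τ < j → δ j (J.X (Sum.inr (τ, b))) = 0 := by
      intro τ
      induction τ with
      | zero => exact ⟨hs1, hs2⟩
      | succ τ ih =>
        rw [← J.D_X]
        constructor
        · rw [show s + 1 + (τ + 1) = s + 1 + τ + 1 from rfl, h2, ih.2 _ (by omega), map_zero,
            zero_add]
          exact ih.1
        · intro j hj
          obtain ⟨j, rfl⟩ : ∃ j', j = j' + 1 := ⟨j - 1, by omega⟩
          rw [h2, ih.2 _ (by omega), ih.2 _ (by omega), map_zero, zero_add]
    set M := s + r with hM
    -- the family of vectors of order at most `M`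
    set u : (Fin 2 × Fin (s + 1)) ⊕ Fin (M + 1) → (Coord 4 2 →₀ K) :=
      Sum.elim (fun q : Fin 2 × Fin (s + 1) => B (q.1, (q.2 : ℕ)))
        (fun τ : Fin (M + 1) => J.d (J.X (Sum.inr ((τ : ℕ), b)))) with hu
    have hord : ∀ k j b', M < j → u k (Sum.inr (j, b')) = 0 := by
      intro k j b' hj
      rcases k with q | τ
      · simp only [hu, Sum.elim_inl]
        rw [hB]
        exact order_iter J (y q.1) r (hr q.1) _ j b' (by have := q.2.2; simp only; omega)
      · simp only [hu, Sum.elim_inr]
        rw [J.d_X, Finsupp.single_apply, if_neg]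
        intro h
        have := congrArg Prod.fst (Sum.inr.inj h)
        simp at this
        omega
    set ρ : (Coord 4 2 →₀ K) →ₗ[K] ((Fin 4 ⊕ (Fin (M + 1) × Fin 2)) → K) :=
      { toFun := fun w k => Sum.elim (fun i => w (Sum.inl i))
          (fun q => w (Sum.inr ((q.1 : ℕ), q.2))) k
        map_add' := fun w w' => by
          funext k; rcases k with k | k <;> simp
        map_smul' := fun c w => by
          funext k; rcases k with k | k <;> simp } with hρ
    have hind : LinearIndependent K (fun k => ρ (u k)) := by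
      rw [Fintype.linearIndependent_iff]
      intro g hg
      have hg1 : ρ (∑ k, g k • u k) = 0 := by
        rw [map_sum, ← hg]
        exact Finset.sum_congr rfl fun k _ => map_smul _ _ _
      have hg2 : ∑ k, g k • u k = 0 := by
        ext α
        rcases α with i | ⟨j, b'⟩
        · have := congrFun hg1 (Sum.inl i)
          simpa [hρ] using this
        · by_cases hj : j ≤ M
          · have := congrFun hg1 (Sum.inr (⟨j, by omega⟩, b'))
            simpa [hρ] using this
          · rw [Finsupp.finsetSum_apply]
            refine Finset.sum_eq_zero fun k _ => ?_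
            rw [Finsupp.smul_apply, hord k j b' (by omega), smul_zero]
      rw [Fintype.sum_sum_type] at hg2
      simp only [hu, Sum.elim_inl, Sum.elim_inr] at hg2
      have key : ∀ N : ℕ, ∀ τ : Fin (M + 1), M - (τ : ℕ) = N → g (Sum.inr τ) = 0 := by
        intro N
        induction N using Nat.strong_induction_on with
        | _ N ih =>
          intro τ hτ
          have hτ2 := τ.2
          have hc := congrArg (fun w => B.repr w (0, s + 1 + (τ : ℕ))) hg2
          simp only [map_add, map_sum, map_smul, Finsupp.add_apply, Finsupp.finsetSum_apply,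
            Finsupp.smul_apply, smul_eq_mul, map_zero, Finsupp.zero_apply] at hc
          have hz1 : ∑ q : Fin 2 × Fin (s + 1), g (Sum.inl q) *
              B.repr (B (q.1, (q.2 : ℕ))) (0, s + 1 + (τ : ℕ)) = 0 := by
            refine Finset.sum_eq_zero fun q _ => ?_
            rw [B.repr_self, Finsupp.single_apply, if_neg, mul_zero]
            intro h
            have h3 := congrArg Prod.snd h
            have h4 := q.2.2
            simp only at h3
            omega
          rw [hz1, zero_add, Finset.sum_eq_single τ] at hc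
          · exact (mul_eq_zero.1 hc).resolve_right (hne τ).1
          · intro σ _ hσ
            have hσ2 := σ.2
            have hσ3 : (σ : ℕ) ≠ (τ : ℕ) := fun h => hσ (Fin.ext h)
            rcases lt_or_gt_of_ne hσ3 with h | h
            · have h5 : B.repr (J.d (J.X (Sum.inr ((σ : ℕ), b)))) (0, s + 1 + (τ : ℕ)) = 0 :=
                (hne σ).2 _ (by omega)
              rw [h5, mul_zero]
            · rw [ih (M - (σ : ℕ)) (by omega) σ rfl, zero_mul]
          · simp
      have key' : ∀ τ, g (Sum.inr τ) = 0 := fun τ => key _ τ rfl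
      have hg3 : ∑ q : Fin 2 × Fin (s + 1), g (Sum.inl q) • B (q.1, (q.2 : ℕ)) = 0 := by
        rw [← hg2]
        simp [key']
      have hBl : LinearIndependent K (fun q : Fin 2 × Fin (s + 1) => B (q.1, (q.2 : ℕ))) := by
        refine B.linearIndependent.comp (fun q : Fin 2 × Fin (s + 1) => (q.1, (q.2 : ℕ))) ?_
        rintro ⟨a, c⟩ ⟨a', c'⟩ h
        simp only [Prod.mk.injEq] at h
        exact Prod.ext h.1 (Fin.ext h.2)
      have key2 := Fintype.linearIndependent_iff.1 hBl _ hg3
      intro k
      rcases k with q | τ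
      · exact key2 q
      · exact key' τ
    have hcard := hind.fintype_card_le_finrank
    simp at hcard
    omega

end FlatOrder
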